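import Mathlib
import Pool.Agent.Q277.MthPowersMain

/-!
# Sums of `m`-th powers of binomial coefficients `binom(r/m, k)` modulo `p^3`

For integers `m > 2`, `r` of different parities and an odd prime `p > r` not dividing `m` with
`p ≡ r (mod m)` and `r ≥ -m/2` we prove
`∑_{k=0}^{p-1} (-1)^{km} binom(r/m, k)^m ≡ 0 (mod p^3)`.
-/

open Finset

namespace Pool.Agent.Results.MP_9b2749_nt.CubeCongruence

/-- `binom(x, k) = x (x - 1) ... (x - k + 1) / k!` for a rational number `x`. -/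
def binom (x : ℚ) (k : ℕ) : ℚ := (∏ i ∈ range k, (x - i)) / k.factorial

/-- `S_{m,r}(p) = ∑_{k=0}^{p-1} (-1)^{km} binom(r/m, k)^m`. -/
def S (m : ℕ) (r : ℤ) (p : ℕ) : ℚ :=
  ∑ k ∈ range p, (-1) ^ (k * m) * binom ((r : ℚ) / (m : ℚ)) k ^ m

/-- Let `m > 2` and `r` be integers of different parities with `r ≥ -m/2`, and let `p` be an odd
prime with `p > r`, `p ∤ m` and `p ≡ r (mod m)`. Then `S_{m,r}(p) ≡ 0 (mod p^3)`: it is `p^3` times
a rational number with denominator prime to `p`. -/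
theorem result (m : ℕ) (r : ℤ) (p : ℕ) (hp : p.Prime) (hp2 : p ≠ 2) (hm : 2 < m) (hpm : ¬ p ∣ m)
    (hr : r < p) (hpar : Odd ((m : ℤ) + r)) (hmod : (p : ℤ) ≡ r [ZMOD m])
    (hge : -(m : ℚ) / 2 ≤ r) :
    ∃ u w : ℤ, ¬ (p : ℤ) ∣ w ∧ S m r p = (p : ℚ) ^ 3 * ((u : ℚ) / (w : ℚ)) := by
  have hp3 : 3 ≤ p := by have := hp.two_le; omega
  have hm0 : (m : ℚ) ≠ 0 := by
    have : 0 < m := by omega
    positivity
  -- p - r = m (s + 1)
  obtain ⟨c, hc⟩ : (m : ℤ) ∣ p - r := hmod.symm.dvd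
  have hcpos : 0 < c := by
    have h1 : (0 : ℤ) < m * c := by rw [← hc]; linarith
    have h2 : (0 : ℤ) < m := by exact_mod_cast (by omega : 0 < m)
    by_contra hneg
    push Not at hneg
    nlinarith
  obtain ⟨s, hs⟩ : ∃ s : ℕ, c = s + 1 := ⟨(c - 1).toNat, by omega⟩
  subst hs
  have hge' : -(m : ℤ) ≤ 2 * r := by
    have : -(m : ℚ) ≤ 2 * r := by linarith
    exact_mod_cast this
  have hms : m * s < p - 1 := by
    have h1 : ((m * s : ℕ) : ℤ) = p - r - m := by push_cast; linear_combination -hc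
    have h3 : (3 : ℤ) ≤ m := by exact_mod_cast hm
    omega
  have hev : Even (m * s) := by
    have hpodd : Odd (p : ℤ) := by
      have := hp.odd_of_ne_two hp2
      exact_mod_cast this
    have h1 : ((m * s : ℕ) : ℤ) = p - (m + r) := by push_cast; linear_combination -hc
    have h2 : Even ((m * s : ℕ) : ℤ) := by rw [h1]; exact hpodd.sub_odd hpar
    exact_mod_cast h2
  have hz : Q277.PInt.PI p (1 / (m : ℚ)) :=
    Q277.PInt.PI.div_nat hp (Q277.PInt.PI.one hp) hpm
  have hmz : (m : ℚ) * (1 / (m : ℚ)) = 1 := by field_simp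
  have hmain := Q277.MthPowers.main hp hz hmz hms hm hev hp2
  have hS : S m r p = ∑ k ∈ range p,
      ((∏ i ∈ range k, ((s : ℚ) + 1 + i - p * (1 / (m : ℚ)))) / k.factorial) ^ m := by
    unfold S
    refine sum_congr rfl fun k _ => ?_
    rw [pow_mul, ← mul_pow]
    congr 1
    unfold binom
    rw [← mul_div_assoc]
    congr 1
    have : (-1 : ℚ) ^ k = ∏ _i ∈ range k, (-1 : ℚ) := by simp
    rw [this, ← prod_mul_distrib]
    refine prod_congr rfl fun i _ => ?_
    have hrq : (r : ℚ) = p - m * (s + 1) := by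
      have := congrArg (Int.cast : ℤ → ℚ) hc
      push_cast at this
      linarith
    rw [hrq]
    field_simp
    ring
  rw [hS]
  obtain ⟨q, ⟨D, N, hD, hN⟩, he⟩ := hmain
  refine ⟨N, D, hD, ?_⟩
  have hD0 : (D : ℚ) ≠ 0 := by
    intro h
    have : D = 0 := by exact_mod_cast h
    exact hD (by rw [this]; exact dvd_zero _)
  rw [sub_zero] at he
  rw [he, ← hN]
  field_simp

end Pool.Agent.Results.MP_9b2749_nt.CubeCongruence
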